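import Pool.Agent.Helper13_TP.Gau

/-!
The difference of two independent walks, and sums over blocks of steps.
-/

set_option autoImplicit false

namespace Pool.Agent.TP.H13

open MeasureTheory ProbabilityTheory
open scoped NNReal ENNReal

instance (k : ℕ) (s : ℝ) : IsProbabilityMeasure (stepLaw k s) := by
  unfold stepLaw
  infer_instance

instance (k : ℕ) (s : ℝ) : IsProbabilityMeasure (walkLaw k s) := by
  unfold walkLaw
  infer_instance

theorem step_diff (k : ℕ) (s : ℝ) :
    Measure.map (fun p : Sp k × Sp k => p.1 - p.2) ((stepLaw k s).prod (stepLaw k s)) =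
      stepLaw k (Real.sqrt 2 * s) := by
  unfold stepLaw
  rw [← (measurePreserving_arrowProdEquivProdArrow ℝ ℝ (Fin (k + 2)) (fun _ => gaussianReal 0 _)
    (fun _ => gaussianReal 0 _)).map_eq, Measure.map_map
    (by fun_prop) (MeasurableEquiv.measurable _)]
  have h0 : ∀ i : Fin (k + 2), IsProbabilityMeasure (Measure.map (fun x : ℝ × ℝ => x.1 - x.2)
      ((gaussianReal 0 (Real.toNNReal (s ^ 2))).prod (gaussianReal 0 (Real.toNNReal (s ^ 2))))) :=
    fun i => Measure.isProbabilityMeasure_map (by fun_prop)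
  have h1 := Measure.pi_map_pi (μ := fun _ : Fin (k + 2) =>
    (gaussianReal 0 (Real.toNNReal (s ^ 2))).prod (gaussianReal 0 (Real.toNNReal (s ^ 2))))
    (f := fun _ (p : ℝ × ℝ) => p.1 - p.2) (by fun_prop)
  have h2 : Measure.map (fun x : ℝ × ℝ => x.1 - x.2)
      ((gaussianReal 0 (Real.toNNReal (s ^ 2))).prod (gaussianReal 0 (Real.toNNReal (s ^ 2)))) =
      gaussianReal 0 (Real.toNNReal ((Real.sqrt 2 * s) ^ 2)) := by
    have h3 : (fun x : ℝ × ℝ => x.1 - x.2) =
        (fun x : ℝ × ℝ => x.1 + x.2) ∘ (Prod.map id (fun z : ℝ => -z)) := by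
      funext x
      simp [sub_eq_add_neg]
    rw [h3, ← Measure.map_map (by fun_prop) (by fun_prop),
      ← Measure.map_prod_map _ _ measurable_id (by fun_prop), Measure.map_id]
    have h4 : Measure.map (fun z : ℝ => -z) (gaussianReal 0 (Real.toNNReal (s ^ 2))) =
        gaussianReal 0 (Real.toNNReal (s ^ 2)) := by
      have := gaussianReal_map_neg (μ := 0) (v := Real.toNNReal (s ^ 2))
      rw [neg_zero] at this
      exact this
    rw [h4]
    have h5 := gaussianReal_conv_gaussianReal (m₁ := 0) (m₂ := 0)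
      (v₁ := Real.toNNReal (s ^ 2)) (v₂ := Real.toNNReal (s ^ 2))
    unfold Measure.conv at h5
    rw [h5, add_zero]
    congr 1
    rw [mul_pow, Real.sq_sqrt (by norm_num), two_mul, Real.toNNReal_add (sq_nonneg _)
      (sq_nonneg _)]
  rw [h2] at h1
  exact h1

theorem walk_diff (k : ℕ) (s : ℝ) :
    Measure.map (fun p : (ℕ → Sp k) × (ℕ → Sp k) => fun j => p.1 j - p.2 j)
      ((walkLaw k s).prod (walkLaw k s)) = walkLaw k (Real.sqrt 2 * s) := by
  unfold walkLaw
  apply Measure.eq_infinitePi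
  intro S t ht
  have hm : MeasurableSet ((S : Set ℕ).pi t) :=
    MeasurableSet.pi S.countable_toSet fun i _ => ht i
  rw [Measure.map_apply (by fun_prop) hm]
  have h1 : (fun p : (ℕ → Sp k) × (ℕ → Sp k) => fun j => p.1 j - p.2 j) ⁻¹' ((S : Set ℕ).pi t) =
      (Prod.map (Finset.restrict S) (Finset.restrict S)) ⁻¹'
        {q : (S → Sp k) × (S → Sp k) | ∀ j : S, q.1 j - q.2 j ∈ t j} := by
    ext p
    simp only [Set.mem_preimage, Set.mem_pi, Finset.mem_coe, Set.mem_ofPred_eq, Prod.map,
      Finset.restrict]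
    constructor
    · intro h j
      exact h j j.2
    · intro h j hj
      exact h ⟨j, hj⟩
  have hm2 : MeasurableSet {q : (S → Sp k) × (S → Sp k) | ∀ j : S, q.1 j - q.2 j ∈ t j} := by
    have : {q : (S → Sp k) × (S → Sp k) | ∀ j : S, q.1 j - q.2 j ∈ t j} =
        ⋂ j : S, (fun q : (S → Sp k) × (S → Sp k) => q.1 j - q.2 j) ⁻¹' (t j) := by
      ext q
      simp
    rw [this]
    exact MeasurableSet.iInter fun j => (by fun_prop : Measurable
      (fun q : (S → Sp k) × (S → Sp k) => q.1 j - q.2 j)) (ht j)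
  rw [h1, ← Measure.map_apply (by fun_prop) hm2, ← Measure.map_prod_map _ _ (by fun_prop)
    (by fun_prop), Measure.infinitePi_map_restrict,
    ← (measurePreserving_arrowProdEquivProdArrow (Sp k) (Sp k) S (fun _ => stepLaw k s)
    (fun _ => stepLaw k s)).map_eq, Measure.map_apply (MeasurableEquiv.measurable _) hm2]
  have h2 : (MeasurableEquiv.arrowProdEquivProdArrow (Sp k) (Sp k) S) ⁻¹'
      {q : (S → Sp k) × (S → Sp k) | ∀ j : S, q.1 j - q.2 j ∈ t j} =
      Set.univ.pi fun j : S => (fun p : Sp k × Sp k => p.1 - p.2) ⁻¹' (t j) := by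
    ext q
    simp [MeasurableEquiv.arrowProdEquivProdArrow, Equiv.arrowProdEquivProdArrow]
  rw [h2, Measure.pi_pi]
  have h3 : ∀ j : S, ((stepLaw k s).prod (stepLaw k s))
      ((fun p : Sp k × Sp k => p.1 - p.2) ⁻¹' (t j)) = stepLaw k (Real.sqrt 2 * s) (t j) := by
    intro j
    rw [← step_diff, Measure.map_apply (by fun_prop) (ht j)]
  simp only [h3]
  exact Finset.prod_coe_sort S (fun j => stepLaw k (Real.sqrt 2 * s) (t j))

/-- the law of a block of steps -/
theorem block_law (k : ℕ) (s : ℝ) (T : Finset ℕ) (hT : T.Nonempty) :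
    (walkLaw k s).map (∑ j ∈ T, fun y : ℕ → Sp k => y j) =
      Measure.pi (fun _ => gaussianReal 0 ((T.card : ℝ≥0) * Real.toNNReal (s ^ 2))) := by
  have h1 : ∀ j : ℕ, (walkLaw k s).map (fun y : ℕ → Sp k => y j) = stepLaw k s := by
    intro j
    unfold walkLaw
    exact Measure.infinitePi_map_eval _ j
  induction hT using Finset.Nonempty.cons_induction with
  | singleton a =>
    simp only [Finset.sum_singleton, Finset.card_singleton, Nat.cast_one, one_mul]
    rw [h1]
    rfl
  | cons a T ha hT ih =>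
    rw [Finset.sum_cons]
    have hcomm : (fun y : ℕ → Sp k => y a) + ∑ x ∈ T, (fun y : ℕ → Sp k => y x) =
        (∑ x ∈ T, (fun y : ℕ → Sp k => y x)) + (fun y : ℕ → Sp k => y a) := add_comm _ _
    rw [hcomm]
    have hind := (indep_steps k s).indepFun_finsetSum_of_notMem
      (fun i => measurable_pi_apply i) ha
    rw [hind.map_add_eq_map_conv_map₀ (by fun_prop) (measurable_pi_apply _).aemeasurable, ih, h1]
    unfold stepLaw Measure.conv
    rw [pi_conv_pi]
    congr 1
    funext i
    have := gaussianReal_conv_gaussianReal (m₁ := 0) (m₂ := 0)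
      (v₁ := (T.card : ℝ≥0) * Real.toNNReal (s ^ 2)) (v₂ := Real.toNNReal (s ^ 2))
    unfold Measure.conv at this
    rw [this, add_zero, Finset.card_cons]
    congr 1
    push_cast
    ring

end Pool.Agent.TP.H13
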