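import Pool.Agent.Helper28_TP.DyS

/-!
GAU: the law of the position after `Δ` steps.
-/

set_option autoImplicit false

namespace Pool.Agent.TP.H13

open MeasureTheory ProbabilityTheory
open scoped NNReal ENNReal

theorem indep_steps (k : ℕ) (s : ℝ) :
    iIndepFun (fun (j : ℕ) (y : ℕ → Sp k) => y j) (walkLaw k s) := by
  unfold walkLaw
  have : IsProbabilityMeasure (stepLaw k s) := by
    unfold stepLaw
    infer_instance
  exact iIndepFun_infinitePi (P := fun _ => stepLaw k s) (X := fun _ => id)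
    (fun _ => measurable_id)

theorem pi_conv_pi {ι : Type} [Fintype ι] (μ ν : ι → Measure ℝ) [∀ i, IsProbabilityMeasure (μ i)]
    [∀ i, IsProbabilityMeasure (ν i)] :
    Measure.map (fun x : (ι → ℝ) × (ι → ℝ) => x.1 + x.2) ((Measure.pi μ).prod (Measure.pi ν)) =
      Measure.pi (fun i => Measure.map (fun x : ℝ × ℝ => x.1 + x.2) ((μ i).prod (ν i))) := by
  rw [← (measurePreserving_arrowProdEquivProdArrow ℝ ℝ ι μ ν).map_eq, Measure.map_map
    (by fun_prop) (MeasurableEquiv.measurable _)]
  have : ∀ i, IsProbabilityMeasure (Measure.map (fun x : ℝ × ℝ => x.1 + x.2)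
      ((μ i).prod (ν i))) := fun i => Measure.isProbabilityMeasure_map (by fun_prop)
  rw [← Measure.pi_map_pi (f := fun (_ : ι) (p : ℝ × ℝ) => p.1 + p.2) (by fun_prop)]
  rfl

theorem sum_law (k : ℕ) (s : ℝ) (n : ℕ) :
    (walkLaw k s).map (∑ j ∈ Finset.range (n + 1), fun y : ℕ → Sp k => y j) =
      Measure.pi (fun _ => gaussianReal 0 (((n + 1 : ℕ) : ℝ≥0) * Real.toNNReal (s ^ 2))) := by
  have : IsProbabilityMeasure (stepLaw k s) := by
    unfold stepLaw
    infer_instance
  have h1 : ∀ j : ℕ, (walkLaw k s).map (fun y : ℕ → Sp k => y j) = stepLaw k s := by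
    intro j
    unfold walkLaw
    exact Measure.infinitePi_map_eval _ j
  have : IsProbabilityMeasure (walkLaw k s) := by
    unfold walkLaw
    infer_instance
  induction n with
  | zero =>
    simp only [zero_add, Finset.range_one, Finset.sum_singleton, Nat.cast_one, one_mul]
    rw [h1]
    rfl
  | succ n ih =>
    rw [Finset.sum_range_succ]
    have hind := (indep_steps k s).indepFun_finsetSum_of_notMem
      (fun i => measurable_pi_apply i) (s := Finset.range (n + 1)) (i := n + 1) (by simp)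
    rw [hind.map_add_eq_map_conv_map₀ (by fun_prop) (measurable_pi_apply _).aemeasurable, ih, h1]
    unfold stepLaw Measure.conv
    rw [pi_conv_pi]
    congr 1
    funext i
    have := gaussianReal_conv_gaussianReal (m₁ := 0) (m₂ := 0)
      (v₁ := ((n + 1 : ℕ) : ℝ≥0) * Real.toNNReal (s ^ 2)) (v₂ := Real.toNNReal (s ^ 2))
    unfold Measure.conv at this
    rw [this, add_zero]
    congr 1
    push_cast
    ring

theorem walk_law (k : ℕ) (s : ℝ) (n : ℕ) (x : Sp k) :
    (walkLaw k s).map (fun y => walk x y (n + 1)) =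
      Measure.pi (fun a => gaussianReal (x a) (((n + 1 : ℕ) : ℝ≥0) * Real.toNNReal (s ^ 2))) := by
  have h1 : (fun y : ℕ → Sp k => walk x y (n + 1)) =
      (fun z : Sp k => fun a => x a + z a) ∘ (∑ j ∈ Finset.range (n + 1),
        fun y : ℕ → Sp k => y j) := by
    funext y a
    simp [walk, Finset.sum_apply]
  rw [h1, ← Measure.map_map (by fun_prop) (by fun_prop), sum_law]
  have : ∀ a : Fin (k + 2), IsProbabilityMeasure (Measure.map (fun z : ℝ => x a + z)
      (gaussianReal 0 (((n + 1 : ℕ) : ℝ≥0) * Real.toNNReal (s ^ 2)))) := fun i =>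
    Measure.isProbabilityMeasure_map (by fun_prop)
  rw [Measure.pi_map_pi (f := fun (a : Fin (k + 2)) (z : ℝ) => x a + z) (by fun_prop)]
  congr 1
  funext a
  have := gaussianReal_map_const_add (μ := 0)
    (v := ((n + 1 : ℕ) : ℝ≥0) * Real.toNNReal (s ^ 2)) (x a)
  rw [this, zero_add]

theorem pi_gauss {ι : Type} [Fintype ι] (m : ι → ℝ) (v : ℝ≥0) (hv : v ≠ 0) :
    Measure.pi (fun i => gaussianReal (m i) v) =
      (volume : Measure (ι → ℝ)).withDensity
        (fun x => ENNReal.ofReal (∏ i, gaussianPDFReal (m i) v (x i))) := by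
  classical
  apply Measure.pi_eq
  intro s hs
  rw [withDensity_apply _ (MeasurableSet.univ_pi hs), ← lintegral_indicator
    (MeasurableSet.univ_pi hs)]
  have h1 : ∀ x : ι → ℝ, (Set.univ.pi s).indicator
      (fun x => ENNReal.ofReal (∏ i, gaussianPDFReal (m i) v (x i))) x
      = ENNReal.ofReal (∏ i, (s i).indicator (gaussianPDFReal (m i) v) (x i)) := by
    intro x
    by_cases hx : x ∈ Set.univ.pi s
    · rw [Set.indicator_of_mem hx]
      congr 1
      refine Finset.prod_congr rfl fun i _ => ?_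
      rw [Set.indicator_of_mem (hx i (Set.mem_univ i))]
    · rw [Set.indicator_of_notMem hx]
      rw [Set.mem_univ_pi] at hx
      push Not at hx
      obtain ⟨i, hi⟩ := hx
      rw [Finset.prod_eq_zero (Finset.mem_univ i) (Set.indicator_of_notMem hi _),
        ENNReal.ofReal_zero]
  simp only [h1]
  have hint : ∀ i, Integrable ((s i).indicator (gaussianPDFReal (m i) v)) volume := fun i =>
    (integrable_gaussianPDFReal (m i) v).indicator (hs i)
  have hnn : ∀ i x, 0 ≤ (s i).indicator (gaussianPDFReal (m i) v) x := fun i x =>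
    Set.indicator_nonneg (fun y _ => gaussianPDFReal_nonneg _ _ _) x
  have hprod : Integrable (fun x : ι → ℝ => ∏ i, (s i).indicator (gaussianPDFReal (m i) v) (x i))
      volume := Integrable.fintype_prod hint
  rw [← ofReal_integral_eq_lintegral_ofReal hprod
    (Filter.Eventually.of_forall fun x => Finset.prod_nonneg fun i _ => hnn i _),
    integral_fintype_prod_volume_eq_prod
      (f := fun i x => (s i).indicator (gaussianPDFReal (m i) v) x),
    ENNReal.ofReal_prod_of_nonneg (fun i _ => integral_nonneg (hnn i))]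
  refine Finset.prod_congr rfl fun i _ => ?_
  rw [gaussianReal_apply_eq_integral (m i) hv, integral_indicator (hs i)]

theorem measurable_walk (k : ℕ) (x : Sp k) (n : ℕ) :
    Measurable (fun y : ℕ → Sp k => walk x y n) := by
  unfold walk
  fun_prop

theorem gau : GauStmt := by
  intro k s hs Δ hΔ x S hS
  obtain ⟨n, rfl⟩ : ∃ n, Δ = n + 1 := ⟨Δ - 1, by omega⟩
  have h1 : walkLaw k s {y | walk x y (n + 1) ∈ S} =
      (walkLaw k s).map (fun y => walk x y (n + 1)) S := by
    rw [Measure.map_apply (measurable_walk k x _) hS]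
    rfl
  have hv : ((((n + 1 : ℕ) : ℝ≥0) * Real.toNNReal (s ^ 2) : ℝ≥0) : ℝ) = s ^ 2 * ((n + 1 : ℕ) : ℝ) := by
    push_cast
    rw [Real.coe_toNNReal _ (sq_nonneg s)]
    ring
  have hv0 : ((n + 1 : ℕ) : ℝ≥0) * Real.toNNReal (s ^ 2) ≠ 0 := by
    intro h
    have h2 : ((((n + 1 : ℕ) : ℝ≥0) * Real.toNNReal (s ^ 2) : ℝ≥0) : ℝ) = ((0 : ℝ≥0) : ℝ) := by
      rw [h]
    rw [hv] at h2
    have : (0 : ℝ) < s ^ 2 * ((n + 1 : ℕ) : ℝ) := by positivity
    rw [h2] at this
    simp at this
  rw [h1, walk_law, pi_gauss _ _ hv0, withDensity_apply _ hS]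
  refine lintegral_congr fun z => ?_
  congr 1
  refine Finset.prod_congr rfl fun a _ => ?_
  rw [gaussianPDFReal, hv, mul_comm (Real.sqrt _)⁻¹, ← div_eq_mul_inv]

end Pool.Agent.TP.H13
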