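import Pool.Agent.Helper13_TP.Diff

/-!
SAU: mean volume of the sausage.
-/

set_option autoImplicit false

namespace Pool.Agent.TP.H13

open MeasureTheory ProbabilityTheory
open scoped NNReal ENNReal

variable {k : ℕ}

/-- the point `x` is visited at time `i` -/
def vis (r : ℝ) (i : ℕ) (x : Sp k) : Set (ℕ → Sp k) := {y | near r x (walk 0 y i)}

theorem meas_near (r : ℝ) : MeasurableSet {p : Sp k × Sp k | near r p.1 p.2} := by
  unfold near
  exact measurableSet_le (by fun_prop) measurable_const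

theorem meas_walk0 (i : ℕ) : Measurable (fun y : ℕ → Sp k => walk 0 y i) := by
  unfold walk
  fun_prop

theorem meas_vis2 (r : ℝ) (i : ℕ) :
    MeasurableSet {p : Sp k × (ℕ → Sp k) | near r p.1 (walk 0 p.2 i)} :=
  (meas_near r).preimage (measurable_fst.prodMk ((meas_walk0 i).comp measurable_snd))

theorem meas_vis (r : ℝ) (i : ℕ) (x : Sp k) : MeasurableSet (vis r i x) :=
  (meas_vis2 r i).preimage (measurable_const.prodMk measurable_id)

theorem meas_hit2 (r : ℝ) (t : ℕ) :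
    MeasurableSet {p : Sp k × (ℕ → Sp k) | ∃ i < t, near r p.1 (walk 0 p.2 i)} := by
  have : {p : Sp k × (ℕ → Sp k) | ∃ i < t, near r p.1 (walk 0 p.2 i)} =
      ⋃ i ∈ Set.Iio t, {p : Sp k × (ℕ → Sp k) | near r p.1 (walk 0 p.2 i)} := by
    ext p
    simp
  rw [this]
  exact MeasurableSet.biUnion (Set.to_countable _) fun i _ => meas_vis2 r i

/-- volume of a ball -/
theorem vol_near (r : ℝ) (hr : 0 < r) (w : Sp k) :
    (volume : Measure (Sp k)) {x | near r x w} ≤ ENNReal.ofReal ((2 * r) ^ (k + 2)) := by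
  have h1 : {x : Sp k | near r x w} ⊆ Set.univ.pi fun a => Set.Icc (w a - r) (w a + r) := by
    intro x hx a _
    have h2 : (x a - w a) ^ 2 ≤ r ^ 2 :=
      (Finset.single_le_sum (f := fun a => (x a - w a) ^ 2) (fun b _ => sq_nonneg _)
        (Finset.mem_univ a)).trans hx
    have h3 := abs_le_of_sq_le_sq' h2 hr.le
    exact ⟨by linarith [h3.1], by linarith [h3.2]⟩
  refine (measure_mono h1).trans ?_
  rw [volume_pi_pi]
  have h2 : ∀ a, w a + r - (w a - r) = 2 * r := fun a => by ring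
  simp only [Real.volume_Icc, h2]
  rw [Finset.prod_const, Finset.card_univ, Fintype.card_fin, ← ENNReal.ofReal_pow (by linarith [hr])]

/-- the mean volume of the sausage -/
noncomputable def mvol (k : ℕ) (r σ : ℝ) (t : ℕ) : ℝ≥0∞ :=
  ∫⁻ x : Sp k, walkLaw k σ {y | ∃ i < t, near r x (walk 0 y i)}

theorem mvol_eq (k : ℕ) (r s : ℝ) (t : ℕ) :
    ∫⁻ y, ∫⁻ x, walkLaw k s {y' | ∃ i < t, near r (walk x y' i) (walk 0 y i)} ∂volume
      ∂(walkLaw k s) = mvol k r (Real.sqrt 2 * s) t := by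
  have hE : ∀ y : ℕ → Sp k, MeasurableSet {p : Sp k × (ℕ → Sp k) |
      ∃ i < t, near r (walk p.1 p.2 i) (walk 0 y i)} := by
    intro y
    have : {p : Sp k × (ℕ → Sp k) | ∃ i < t, near r (walk p.1 p.2 i) (walk 0 y i)} =
        ⋃ i ∈ Set.Iio t, {p : Sp k × (ℕ → Sp k) | near r (walk p.1 p.2 i) (walk 0 y i)} := by
      ext p
      simp
    rw [this]
    refine MeasurableSet.biUnion (Set.to_countable _) fun i _ => ?_
    have hw : Measurable (fun p : Sp k × (ℕ → Sp k) => walk p.1 p.2 i) := by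
      refine measurable_pi_lambda _ fun a => ?_
      unfold walk
      fun_prop
    exact (meas_near r).preimage (hw.prodMk measurable_const)
  have h1 : ∀ y : ℕ → Sp k,
      ∫⁻ x, walkLaw k s {y' | ∃ i < t, near r (walk x y' i) (walk 0 y i)} ∂volume =
      ∫⁻ y', volume {x | ∃ i < t, near r (walk x y' i) (walk 0 y i)} ∂(walkLaw k s) := by
    intro y
    have a1 := Measure.prod_apply (μ := (volume : Measure (Sp k))) (ν := walkLaw k s) (hE y)
    have a2 := Measure.prod_apply_symm (μ := (volume : Measure (Sp k))) (ν := walkLaw k s) (hE y)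
    rw [a1] at a2
    exact a2
  simp only [h1]
  have h2 : ∀ y y' : ℕ → Sp k, {x : Sp k | ∃ i < t, near r (walk x y' i) (walk 0 y i)} =
      {x : Sp k | ∃ i < t, near r x (walk 0 (fun j => y j - y' j) i)} := by
    intro y y'
    ext x
    simp only [Set.mem_ofPred_eq]
    refine exists_congr fun i => and_congr_right fun _ => ?_
    unfold near walk
    have : ∀ a, x a + ∑ j ∈ Finset.range i, y' j a - ((0 : Sp k) a + ∑ j ∈ Finset.range i, y j a) =
        x a - ((0 : Sp k) a + ∑ j ∈ Finset.range i, (y j - y' j) a) := by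
      intro a
      simp only [Pi.sub_apply, Finset.sum_sub_distrib]
      ring
    simp only [this]
  simp only [h2]
  have hg : Measurable fun ξ : ℕ → Sp k =>
      (volume : Measure (Sp k)) {x | ∃ i < t, near r x (walk 0 ξ i)} :=
    measurable_measure_prodMk_right (meas_hit2 r t)
  have h3 : ∫⁻ y, ∫⁻ y', (volume : Measure (Sp k))
        {x | ∃ i < t, near r x (walk 0 (fun j => y j - y' j) i)} ∂(walkLaw k s) ∂(walkLaw k s) =
      ∫⁻ ξ, (volume : Measure (Sp k)) {x | ∃ i < t, near r x (walk 0 ξ i)}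
        ∂(walkLaw k (Real.sqrt 2 * s)) := by
    rw [← walk_diff, lintegral_map hg (by fun_prop), lintegral_prod]
    exact (hg.comp (by fun_prop : Measurable (fun p : (ℕ → Sp k) × (ℕ → Sp k) =>
      fun j => p.1 j - p.2 j))).aemeasurable
  rw [h3]
  have a1 := Measure.prod_apply (μ := (volume : Measure (Sp k)))
    (ν := walkLaw k (Real.sqrt 2 * s)) (meas_hit2 r t)
  have a2 := Measure.prod_apply_symm (μ := (volume : Measure (Sp k)))
    (ν := walkLaw k (Real.sqrt 2 * s)) (meas_hit2 r t)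
  rw [a1] at a2
  exact a2.symm

theorem int_vis (k : ℕ) (r σ : ℝ) (hr : 0 < r) (i : ℕ) :
    ∫⁻ x : Sp k, walkLaw k σ (vis r i x) ≤ ENNReal.ofReal ((2 * r) ^ (k + 2)) := by
  have a1 := Measure.prod_apply (μ := (volume : Measure (Sp k)))
    (ν := walkLaw k σ) (meas_vis2 r i)
  have a2 := Measure.prod_apply_symm (μ := (volume : Measure (Sp k)))
    (ν := walkLaw k σ) (meas_vis2 r i)
  rw [a1] at a2
  have a3 : ∫⁻ x : Sp k, walkLaw k σ (vis r i x) =
      ∫⁻ y, volume {x | near r x (walk 0 y i)} ∂(walkLaw k σ) := a2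
  rw [a3]
  calc ∫⁻ y, volume {x : Sp k | near r x (walk 0 y i)} ∂(walkLaw k σ)
      ≤ ∫⁻ y, ENNReal.ofReal ((2 * r) ^ (k + 2)) ∂(walkLaw k σ) :=
        lintegral_mono fun y => vol_near r hr _
    _ = _ := by simp

/-- union bound -/
theorem mvol_le (k : ℕ) (r σ : ℝ) (hr : 0 < r) (t : ℕ) :
    mvol k r σ t ≤ t * ENNReal.ofReal ((2 * r) ^ (k + 2)) := by
  have h1 : ∀ x : Sp k, walkLaw k σ {y | ∃ i < t, near r x (walk 0 y i)} ≤
      ∑ i ∈ Finset.range t, walkLaw k σ (vis r i x) := by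
    intro x
    have : {y : ℕ → Sp k | ∃ i < t, near r x (walk 0 y i)} =
        ⋃ i ∈ Finset.range t, vis r i x := by
      ext y
      simp [vis]
    rw [this]
    exact measure_biUnion_finset_le _ _
  unfold mvol
  calc ∫⁻ x : Sp k, walkLaw k σ {y | ∃ i < t, near r x (walk 0 y i)}
      ≤ ∫⁻ x : Sp k, ∑ i ∈ Finset.range t, walkLaw k σ (vis r i x) := lintegral_mono h1
    _ = ∑ i ∈ Finset.range t, ∫⁻ x : Sp k, walkLaw k σ (vis r i x) := by
        rw [lintegral_finsetSum]
        intro i _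
        exact measurable_measure_prodMk_left (meas_vis2 r i)
    _ ≤ ∑ i ∈ Finset.range t, ENNReal.ofReal ((2 * r) ^ (k + 2)) :=
        Finset.sum_le_sum fun i _ => int_vis k r σ hr i
    _ = _ := by
        rw [Finset.sum_const, Finset.card_range, nsmul_eq_mul]

/-! ### First visits -/

/-- the first visit of the ball around `x` is at time `i` -/
def fst (r : ℝ) (i : ℕ) (x : Sp k) : Set (ℕ → Sp k) :=
  {y | near r x (walk 0 y i) ∧ ∀ i' < i, ¬ near r x (walk 0 y i')}

/-- the increment between `i` and `i + j` is small -/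
def inc (r : ℝ) (i j : ℕ) : Set (ℕ → Sp k) :=
  {y | near r (∑ l ∈ Finset.Ico i (i + j), y l) 0}

theorem meas_fst (r : ℝ) (i : ℕ) (x : Sp k) : MeasurableSet (fst r i x) := by
  have : fst r i x = vis r i x ∩ ⋂ i' ∈ Set.Iio i, (vis r i' x)ᶜ := by
    ext y
    simp [fst, vis]
  rw [this]
  exact (meas_vis r i x).inter (MeasurableSet.biInter (Set.to_countable _)
    fun i' _ => (meas_vis r i' x).compl)

theorem meas_ball (r : ℝ) : MeasurableSet {z : Sp k | near r z 0} :=
  (meas_near r).preimage (measurable_id.prodMk measurable_const)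

theorem meas_inc (r : ℝ) (i j : ℕ) : MeasurableSet (inc r i j : Set (ℕ → Sp k)) :=
  (meas_ball r).preimage (by fun_prop : Measurable fun y : ℕ → Sp k =>
    ∑ l ∈ Finset.Ico i (i + j), y l)

theorem walk_congr (x : Sp k) (y y' : ℕ → Sp k) (i : ℕ) (h : ∀ l < i, y l = y' l) :
    walk x y i = walk x y' i := by
  funext a
  unfold walk
  congr 1
  exact Finset.sum_congr rfl fun l hl => by rw [h l (Finset.mem_range.1 hl)]

/-- extension by zero -/
noncomputable def ext0 (i : ℕ) (η : (Finset.range i) → Sp k) : ℕ → Sp k := fun l =>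
  if h : l ∈ Finset.range i then η ⟨l, h⟩ else 0

theorem meas_ext0 (i : ℕ) : Measurable (ext0 (k := k) i) := by
  refine measurable_pi_lambda _ fun l => ?_
  unfold ext0
  split_ifs
  · fun_prop
  · fun_prop

/-- independence of the past and of an increment -/
theorem fst_inc (σ r : ℝ) (i j : ℕ) (x : Sp k) :
    walkLaw k σ (fst r i x ∩ inc r i j) = walkLaw k σ (fst r i x) * walkLaw k σ (inc r i j) := by
  have hind := (indep_steps k σ).indepFun_finset (Finset.range i) (Finset.Ico i (i + j))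
    (by
      rw [Finset.disjoint_left]
      intro a ha hb
      simp only [Finset.mem_range, Finset.mem_Ico] at ha hb
      omega) (fun i => measurable_pi_apply i)
  have h1 : fst r i x = (fun (y : ℕ → Sp k) (l : Finset.range i) => y l) ⁻¹'
      {η | ext0 i η ∈ fst r i x} := by
    ext y
    simp only [Set.mem_preimage, Set.mem_ofPred_eq]
    have h2 : ∀ i' ≤ i, walk 0 (ext0 i fun l : Finset.range i => y l) i' = walk 0 y i' := by
      intro i' hi'
      apply walk_congr
      intro l hl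
      unfold ext0
      rw [dif_pos (Finset.mem_range.2 (hl.trans_le hi'))]
    constructor
    · rintro ⟨a, b⟩
      refine ⟨?_, fun i' hi' => ?_⟩
      · rw [h2 i le_rfl]
        exact a
      · rw [h2 i' hi'.le]
        exact b i' hi'
    · rintro ⟨a, b⟩
      refine ⟨?_, fun i' hi' => ?_⟩
      · rw [h2 i le_rfl] at a
        exact a
      · have := b i' hi'
        rw [h2 i' hi'.le] at this
        exact this
  have h3 : (inc r i j : Set (ℕ → Sp k)) =
      (fun (y : ℕ → Sp k) (l : Finset.Ico i (i + j)) => y l) ⁻¹'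
      {η | near r (∑ l, η l) 0} := by
    ext y
    simp only [inc, Set.mem_preimage, Set.mem_ofPred_eq]
    rw [Finset.sum_coe_sort (Finset.Ico i (i + j)) (fun l => y l)]
  have h4 := hind.measure_inter_preimage_eq_mul {η | ext0 i η ∈ fst r i x}
    {η | near r (∑ l, η l) 0} ((meas_fst r i x).preimage (meas_ext0 i))
    ((meas_ball r).preimage (by fun_prop))
  rw [← h1, ← h3] at h4
  exact h4

/-- the law of an increment -/
theorem inc_law (σ r : ℝ) (i j : ℕ) (hj : 1 ≤ j) :
    walkLaw k σ (inc r i j) = Measure.pi (fun _ : Fin (k + 2) =>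
      gaussianReal 0 ((j : ℝ≥0) * Real.toNNReal (σ ^ 2))) {z : Sp k | near r z 0} := by
  have h1 : (inc r i j : Set (ℕ → Sp k)) = (∑ l ∈ Finset.Ico i (i + j), fun y : ℕ → Sp k => y l) ⁻¹'
      {z : Sp k | near r z 0} := by
    ext y
    simp [inc]
  have h2 := block_law k σ (Finset.Ico i (i + j)) (Finset.nonempty_Ico.2 (by omega))
  have h3 : (Finset.Ico i (i + j)).card = j := by simp
  rw [h3] at h2
  rw [h1, ← h2, Measure.map_apply (by fun_prop) (meas_ball r)]

theorem near_tri (r : ℝ) (x u v : Sp k) (h1 : near r x u) (h2 : near r v 0) :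
    near (2 * r) x (u + v) := by
  unfold near at *
  have h3 : ∑ a, (x a - (u + v) a) ^ 2 ≤ ∑ a, (2 * (x a - u a) ^ 2 + 2 * (v a - (0 : Sp k) a) ^ 2) := by
    refine Finset.sum_le_sum fun a _ => ?_
    simp only [Pi.add_apply, Pi.zero_apply, sub_zero]
    nlinarith [sq_nonneg ((x a - u a) + v a)]
  rw [Finset.sum_add_distrib, ← Finset.mul_sum, ← Finset.mul_sum] at h3
  nlinarith

theorem fst_inc_sub (r : ℝ) (i j : ℕ) (x : Sp k) :
    fst r i x ∩ inc r i j ⊆ fst r i x ∩ vis (2 * r) (i + j) x := by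
  rintro y ⟨h1, h2⟩
  refine ⟨h1, ?_⟩
  have h3 := near_tri r x _ _ h1.1 h2
  have h4 : walk 0 y i + ∑ l ∈ Finset.Ico i (i + j), y l = walk 0 y (i + j) := by
    funext a
    simp only [walk, Pi.add_apply, Pi.zero_apply, zero_add, Finset.sum_apply]
    rw [Finset.range_eq_Ico, Finset.range_eq_Ico, Finset.sum_Ico_consecutive _ (by omega) (by omega)]
  rw [h4] at h3
  exact h3

/-- the mean number of visits, from below -/
theorem visits (σ r : ℝ) (t : ℕ) (x : Sp k) :
    walkLaw k σ {y | ∃ i < t, near r x (walk 0 y i)} * ∑ j ∈ Finset.Ico 1 t,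
      (Measure.pi (fun _ : Fin (k + 2) =>
        gaussianReal 0 ((j : ℝ≥0) * Real.toNNReal (σ ^ 2))) {z : Sp k | near r z 0}) ≤
      ∑ m ∈ Finset.range (2 * t), walkLaw k σ (vis (2 * r) m x) := by
  have hdisj : ∀ i i' : ℕ, i ≠ i' → Disjoint (fst r i x) (fst r i' x) := by
    intro i i' hne
    rw [Set.disjoint_left]
    rintro y ⟨h1, h2⟩ ⟨h3, h4⟩
    rcases lt_or_gt_of_ne hne with h | h
    · exact h4 i h h1
    · exact h2 i' h h3
  have hun : {y : ℕ → Sp k | ∃ i < t, near r x (walk 0 y i)} =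
      ⋃ i ∈ Finset.range t, fst r i x := by
    classical
    ext y
    simp only [Set.mem_ofPred_eq, Set.mem_iUnion, Finset.mem_range, exists_prop]
    constructor
    · intro h
      refine ⟨Nat.find h, (Nat.find_spec h).1, (Nat.find_spec h).2, fun i' hi' => ?_⟩
      have h5 := Nat.find_min h hi'
      intro h6
      exact h5 ⟨hi'.trans (Nat.find_spec h).1, h6⟩
    · rintro ⟨i, hi, h1, -⟩
      exact ⟨i, hi, h1⟩
  rw [hun, measure_biUnion_finset (fun i _ i' _ hne => hdisj i i' hne)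
    (fun i _ => meas_fst r i x), Finset.sum_mul]
  have h1 : ∀ i ∈ Finset.range t, walkLaw k σ (fst r i x) * ∑ j ∈ Finset.Ico 1 t,
      (Measure.pi (fun _ : Fin (k + 2) =>
        gaussianReal 0 ((j : ℝ≥0) * Real.toNNReal (σ ^ 2))) {z : Sp k | near r z 0}) ≤
      ∑ m ∈ Finset.range (2 * t), walkLaw k σ (fst r i x ∩ vis (2 * r) m x) := by
    intro i hi
    rw [Finset.mem_range] at hi
    rw [Finset.mul_sum]
    calc ∑ j ∈ Finset.Ico 1 t, walkLaw k σ (fst r i x) * _
        ≤ ∑ j ∈ Finset.Ico 1 t, walkLaw k σ (fst r i x ∩ vis (2 * r) (i + j) x) := by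
          refine Finset.sum_le_sum fun j hj => ?_
          rw [← inc_law σ r i j (Finset.mem_Ico.1 hj).1, ← fst_inc]
          exact measure_mono (fst_inc_sub r i j x)
      _ = ∑ m ∈ (Finset.Ico 1 t).image (fun j => i + j),
            walkLaw k σ (fst r i x ∩ vis (2 * r) m x) := by
          rw [Finset.sum_image]
          intro a _ b _ hab
          simpa using hab
      _ ≤ _ := by
          refine Finset.sum_le_sum_of_subset ?_
          intro m hm
          simp only [Finset.mem_image, Finset.mem_Ico, Finset.mem_range] at hm ⊢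
          omega
  refine (Finset.sum_le_sum h1).trans ?_
  rw [Finset.sum_comm]
  refine Finset.sum_le_sum fun m _ => ?_
  rw [← measure_biUnion_finset (fun i _ i' _ hne => (hdisj i i' hne).mono
    Set.inter_subset_left Set.inter_subset_left)
    (fun i _ => (meas_fst r i x).inter (meas_vis (2 * r) m x))]
  exact measure_mono (Set.iUnion₂_subset fun i _ => Set.inter_subset_right)

/-- lower bound for the return probabilities in the plane -/
theorem ball_low (σ r : ℝ) (hσ : 0 < σ) (hr : 0 < r) (j : ℕ) (hj : 1 ≤ j) :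
    ENNReal.ofReal (r ^ 2 * Real.exp (-(r ^ 2 / σ ^ 2)) / (2 * Real.pi * σ ^ 2) * (j : ℝ)⁻¹) ≤
      Measure.pi (fun _ : Fin (0 + 2) =>
        gaussianReal 0 ((j : ℝ≥0) * Real.toNNReal (σ ^ 2))) {z : Sp 0 | near r z 0} := by
  have hj' : (1 : ℝ) ≤ (j : ℝ) := by exact_mod_cast hj
  have hσ2 : 0 < σ ^ 2 := by positivity
  have hv : (((j : ℝ≥0) * Real.toNNReal (σ ^ 2) : ℝ≥0) : ℝ) = j * σ ^ 2 := by
    push_cast
    rw [Real.coe_toNNReal _ (sq_nonneg σ)]
  have hv0 : (j : ℝ≥0) * Real.toNNReal (σ ^ 2) ≠ 0 := by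
    intro h
    have h2 : (((j : ℝ≥0) * Real.toNNReal (σ ^ 2) : ℝ≥0) : ℝ) = ((0 : ℝ≥0) : ℝ) := by
      rw [h]
    rw [hv] at h2
    have : (0 : ℝ) < (j : ℝ) * σ ^ 2 := by positivity
    rw [h2] at this
    simp at this
  rw [pi_gauss (fun _ => 0) _ hv0, withDensity_apply _ (meas_ball r)]
  have hsub : (Set.univ.pi fun _ : Fin (0 + 2) => Set.Icc (-(r / 2)) (r / 2)) ⊆
      {z : Sp 0 | near r z 0} := by
    intro z hz
    have h1 : ∀ a, (z a) ^ 2 ≤ (r / 2) ^ 2 := by
      intro a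
      have := hz a (Set.mem_univ a)
      exact sq_le_sq' this.1 this.2
    simp only [Set.mem_ofPred_eq, near, Pi.zero_apply, sub_zero]
    calc ∑ a : Fin (0 + 2), z a ^ 2 ≤ ∑ _a : Fin (0 + 2), (r / 2) ^ 2 :=
          Finset.sum_le_sum fun a _ => h1 a
      _ ≤ r ^ 2 := by
          rw [Finset.sum_const, Finset.card_univ, Fintype.card_fin]
          simp
          nlinarith [sq_nonneg r]
  refine le_trans ?_ (lintegral_mono_set hsub)
  have hm : MeasurableSet (Set.univ.pi fun _ : Fin (0 + 2) => Set.Icc (-(r / 2)) (r / 2)) :=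
    MeasurableSet.univ_pi fun _ => measurableSet_Icc
  have hvol : (volume : Measure (Sp 0)) (Set.univ.pi fun _ : Fin (0 + 2) =>
      Set.Icc (-(r / 2)) (r / 2)) = ENNReal.ofReal (r ^ 2) := by
    rw [volume_pi_pi]
    have h2 : r / 2 - -(r / 2) = r := by ring
    simp only [Real.volume_Icc, h2]
    rw [Finset.prod_const, Finset.card_univ, Fintype.card_fin, ← ENNReal.ofReal_pow hr.le]
  have hlow : ∀ z ∈ (Set.univ.pi fun _ : Fin (0 + 2) => Set.Icc (-(r / 2)) (r / 2)),
      ENNReal.ofReal (Real.exp (-(r ^ 2 / σ ^ 2)) / (2 * Real.pi * σ ^ 2) * (j : ℝ)⁻¹) ≤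
      ENNReal.ofReal (∏ i : Fin (0 + 2), gaussianPDFReal 0
        ((j : ℝ≥0) * Real.toNNReal (σ ^ 2)) (z i)) := by
    intro z hz
    apply ENNReal.ofReal_le_ofReal
    have h1 : ∀ a, (z a) ^ 2 ≤ (r / 2) ^ 2 := by
      intro a
      have := hz a (Set.mem_univ a)
      exact sq_le_sq' this.1 this.2
    rw [Fin.prod_univ_two]
    simp only [gaussianPDFReal, hv, sub_zero]
    have e1 : (Real.sqrt (2 * Real.pi * (j * σ ^ 2)))⁻¹ * Real.exp (-(z 0) ^ 2 / (2 * (j * σ ^ 2))) *
        ((Real.sqrt (2 * Real.pi * (j * σ ^ 2)))⁻¹ * Real.exp (-(z 1) ^ 2 / (2 * (j * σ ^ 2)))) =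
        (2 * Real.pi * (j * σ ^ 2))⁻¹ *
          Real.exp (-(z 0) ^ 2 / (2 * (j * σ ^ 2)) + -(z 1) ^ 2 / (2 * (j * σ ^ 2))) := by
      rw [Real.exp_add]
      have : (Real.sqrt (2 * Real.pi * (j * σ ^ 2)))⁻¹ * (Real.sqrt (2 * Real.pi * (j * σ ^ 2)))⁻¹ =
          (2 * Real.pi * (j * σ ^ 2))⁻¹ := by
        rw [← mul_inv, Real.mul_self_sqrt (by positivity)]
      rw [← this]
      ring
    rw [e1]
    have e2 : Real.exp (-(r ^ 2 / σ ^ 2)) / (2 * Real.pi * σ ^ 2) * (j : ℝ)⁻¹ =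
        (2 * Real.pi * (j * σ ^ 2))⁻¹ * Real.exp (-(r ^ 2 / σ ^ 2)) := by
      field_simp
    rw [e2]
    apply mul_le_mul_of_nonneg_left _ (by positivity)
    apply Real.exp_le_exp.2
    have h3 : (z 0) ^ 2 / (2 * (j * σ ^ 2)) + (z 1) ^ 2 / (2 * (j * σ ^ 2)) ≤ r ^ 2 / σ ^ 2 := by
      rw [← add_div, div_le_div_iff₀ (by positivity) hσ2]
      have h4 := h1 0
      have h5 := h1 1
      have h6 : z 0 ^ 2 + z 1 ^ 2 ≤ r ^ 2 := by nlinarith
      have h7 : (0 : ℝ) ≤ r ^ 2 * σ ^ 2 := by positivity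
      nlinarith [mul_le_mul_of_nonneg_right h6 hσ2.le]
    rw [neg_div, neg_div]
    linarith
  calc ENNReal.ofReal (r ^ 2 * Real.exp (-(r ^ 2 / σ ^ 2)) / (2 * Real.pi * σ ^ 2) * (j : ℝ)⁻¹)
      = ENNReal.ofReal (Real.exp (-(r ^ 2 / σ ^ 2)) / (2 * Real.pi * σ ^ 2) * (j : ℝ)⁻¹) *
        ENNReal.ofReal (r ^ 2) := by
        rw [← ENNReal.ofReal_mul (by positivity)]
        congr 1
        ring
    _ = ∫⁻ _z in (Set.univ.pi fun _ : Fin (0 + 2) => Set.Icc (-(r / 2)) (r / 2)),
          ENNReal.ofReal (Real.exp (-(r ^ 2 / σ ^ 2)) / (2 * Real.pi * σ ^ 2) * (j : ℝ)⁻¹) := by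
        rw [setLIntegral_const, hvol]
    _ ≤ _ := setLIntegral_mono' hm hlow

theorem sum_low (c : ℝ) (hc : 0 < c) (t : ℕ) (ht : 2 ≤ t) :
    ENNReal.ofReal (c * Real.log t) ≤ ∑ j ∈ Finset.Ico 1 t, ENNReal.ofReal (c * (j : ℝ)⁻¹) := by
  rw [← ENNReal.ofReal_sum_of_nonneg (fun j _ => by positivity), ← Finset.mul_sum]
  apply ENNReal.ofReal_le_ofReal
  apply mul_le_mul_of_nonneg_left _ hc.le
  obtain ⟨n, rfl⟩ : ∃ n, t = n + 1 := ⟨t - 1, by omega⟩
  have h1 := log_add_one_le_harmonic n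
  have h2 : ((harmonic n : ℚ) : ℝ) = ∑ j ∈ Finset.Ico 1 (n + 1), (j : ℝ)⁻¹ := by
    rw [harmonic, Finset.sum_Ico_eq_sum_range]
    push_cast
    refine Finset.sum_congr (by simp) fun i _ => by rw [add_comm]
  rw [h2] at h1
  exact h1

theorem mvol_plane (σ r : ℝ) (hσ : 0 < σ) (hr : 0 < r) : ∃ C : ℝ, 0 < C ∧ ∀ t : ℕ, 2 ≤ t →
    mvol 0 r σ t ≤ ENNReal.ofReal (C * (t / Real.log t)) := by
  set c : ℝ := r ^ 2 * Real.exp (-(r ^ 2 / σ ^ 2)) / (2 * Real.pi * σ ^ 2) with hc
  have hc0 : 0 < c := by positivity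
  refine ⟨2 * (2 * (2 * r)) ^ 2 / c, by positivity, fun t ht => ?_⟩
  have hlog : 0 < Real.log t := Real.log_pos (by exact_mod_cast (by omega : 1 < t))
  set S : ℝ≥0∞ := ∑ j ∈ Finset.Ico 1 t,
      (Measure.pi (fun _ : Fin (0 + 2) =>
        gaussianReal 0 ((j : ℝ≥0) * Real.toNNReal (σ ^ 2))) {z : Sp 0 | near r z 0}) with hS
  have h1 : ENNReal.ofReal (c * Real.log t) ≤ S := by
    refine (sum_low c hc0 t ht).trans ?_
    exact Finset.sum_le_sum fun j hj => ball_low σ r hσ hr j (Finset.mem_Ico.1 hj).1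
  have h2 : mvol 0 r σ t * S ≤ (2 * t : ℕ) * ENNReal.ofReal ((2 * (2 * r)) ^ 2) := by
    unfold mvol
    have hm : Measurable fun x : Sp 0 => walkLaw 0 σ {y | ∃ i < t, near r x (walk 0 y i)} :=
      measurable_measure_prodMk_left (meas_hit2 r t)
    rw [← lintegral_mul_const _ hm]
    calc ∫⁻ x : Sp 0, walkLaw 0 σ {y | ∃ i < t, near r x (walk 0 y i)} * S
        ≤ ∫⁻ x : Sp 0, ∑ m ∈ Finset.range (2 * t), walkLaw 0 σ (vis (2 * r) m x) :=
          lintegral_mono fun x => visits σ r t x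
      _ = ∑ m ∈ Finset.range (2 * t), ∫⁻ x : Sp 0, walkLaw 0 σ (vis (2 * r) m x) := by
          rw [lintegral_finsetSum]
          intro i _
          exact measurable_measure_prodMk_left (meas_vis2 (2 * r) i)
      _ ≤ ∑ m ∈ Finset.range (2 * t), ENNReal.ofReal ((2 * (2 * r)) ^ (0 + 2)) :=
          Finset.sum_le_sum fun i _ => int_vis 0 (2 * r) σ (by positivity) i
      _ = _ := by
          rw [Finset.sum_const, Finset.card_range, nsmul_eq_mul]
  have h3 : mvol 0 r σ t * ENNReal.ofReal (c * Real.log t) ≤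
      ENNReal.ofReal (2 * t * (2 * (2 * r)) ^ 2) := by
    refine (mul_le_mul_right h1 _).trans (h2.trans (le_of_eq ?_))
    rw [ENNReal.ofReal_mul (by positivity)]
    congr 1
    rw [ENNReal.ofReal_mul (by norm_num), ENNReal.ofReal_natCast]
    push_cast
    simp
  have h4 : mvol 0 r σ t ≤ ENNReal.ofReal (2 * t * (2 * (2 * r)) ^ 2) /
      ENNReal.ofReal (c * Real.log t) := by
    rw [ENNReal.le_div_iff_mul_le (Or.inl (by
      rw [Ne, ENNReal.ofReal_eq_zero]
      push Not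
      positivity)) (Or.inl ENNReal.ofReal_ne_top)]
    exact h3
  refine h4.trans (le_of_eq ?_)
  rw [← ENNReal.ofReal_div_of_pos (by positivity)]
  congr 1
  field_simp

theorem sau (_ : GauStmt) : SauStmt := by
  intro k r s hr hs
  by_cases hk : k = 0
  · subst hk
    obtain ⟨C, hC, h⟩ := mvol_plane (Real.sqrt 2 * s) r (by positivity) hr
    refine ⟨C, hC, fun t ht => ?_⟩
    rw [mvol_eq]
    have := h t ht
    unfold expo
    rw [if_pos rfl]
    exact this
  · refine ⟨(2 * r) ^ (k + 2), by positivity, fun t ht => ?_⟩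
    rw [mvol_eq]
    refine (mvol_le k r _ hr t).trans (le_of_eq ?_)
    unfold expo
    rw [if_neg hk, mul_comm, ENNReal.ofReal_mul (by positivity), ENNReal.ofReal_natCast]

end Pool.Agent.TP.H13
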